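import Pool.Agent.J6H72.BX.Met

/-!
# Box products of metrizable spaces which are neither metacompact nor subparacompact

Q2 of MP_c1f1e9_gt. All definitions are in `Pool.Agent.J6H72.BX.Defs`.
-/

open Set Topology TopologicalSpace Pool.Agent.J6H72.BX

namespace Pool.Agent.Results.MP_c1f1e9_gt.NotSubparacompact

universe u v

lemma not_discrete_baire : ¬ DiscreteTopology (ℕ → ℕ) := by
  intro h
  have h1 : Countable (ℕ → ℕ) := separableSpace_iff_countable.1 inferInstance
  obtain ⟨f, hf⟩ := exists_surjective_nat (ℕ → ℕ)
  obtain ⟨n, hn⟩ := hf fun n => f n n + 1
  have h2 := congrFun hn n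
  simp at h2

/-- `NoCovering T` says that `T` is not countably orthocompact, not countably metacompact, not
metacompact, not subparacompact and not submetacompact.

(1) Let `X i`, `i ∈ ι`, be nonempty metrizable spaces such that some factor `X i₀` contains a closed
copy of the Baire space and infinitely many of the other factors are not discrete. Then the box
product has none of these covering properties.

(2) In particular, for every infinite index set `ι` (for instance `ι = ℕ`), the box power of the
Baire space with index set `ι`, a box product of separable completely metrizable spaces, has none of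
these covering properties.

(3) The box product of a family of nonempty metrizable spaces is hereditarily countably
orthocompact if and only if it is hereditarily metacompact, if and only if it is hereditarily
subparacompact, if and only if it is metrizable, if and only if all but finitely many of the factors
are discrete. -/
theorem result :
    (∀ (ι : Type u) (X : ι → Type v) [∀ i, TopologicalSpace (X i)] [∀ i, MetrizableSpace (X i)]
      [∀ i, Nonempty (X i)] (i₀ : ι) (e : (ℕ → ℕ) → X i₀), IsClosedEmbedding e →
      {i | i ≠ i₀ ∧ ¬ DiscreteTopology (X i)}.Infinite → NoCovering (BoxProd X)) ∧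
    (∀ (ι : Type u) [Infinite ι], NoCovering (BoxProd fun _ : ι => (ℕ → ℕ))) ∧
    (∀ (ι : Type u) (X : ι → Type v) [∀ i, TopologicalSpace (X i)] [∀ i, MetrizableSpace (X i)]
      [∀ i, Nonempty (X i)],
      List.TFAE [{i | ¬ DiscreteTopology (X i)}.Finite,
        MetrizableSpace (BoxProd X),
        ∀ S : Set (BoxProd X), CountablyOrthocompact S,
        ∀ S : Set (BoxProd X), CountablyMetacompact S,
        ∀ S : Set (BoxProd X), Metacompact S,
        ∀ S : Set (BoxProd X), Subparacompact S,
        ∀ S : Set (BoxProd X), Submetacompact S]) := by
  refine ⟨?_, ?_, ?_⟩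
  · intro ι X _ _ _ i₀ e he h
    exact noCovering (closedPart i₀ e he h)
  · intro ι _
    have h0 : Nonempty ι := inferInstance
    obtain ⟨i₀⟩ := h0
    apply noCovering
    apply closedPart i₀ id IsClosedEmbedding.id
    have h1 : {i | i ≠ i₀ ∧ ¬ DiscreteTopology (ℕ → ℕ)} = {i₀}ᶜ := by
      ext i
      simp only [mem_ofPred_eq, mem_compl_iff, mem_singleton_iff]
      exact ⟨fun h => h.1, fun h => ⟨h, not_discrete_baire⟩⟩
    rw [h1]
    exact (finite_singleton i₀).infinite_compl
  · intro ι X _ _ _
    tfae_have 1 → 2 := fun h => metrizable_of_finite h
    tfae_have 2 → 5 := fun h S => metacompact_of_metrizable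
    tfae_have 2 → 6 := fun h S => subparacompact_of_metrizable
    tfae_have 5 → 7 := fun h S => (h S).sub
    tfae_have 6 → 4 := fun h S => (h S).count
    tfae_have 7 → 4 := fun h S => (h S).count
    tfae_have 4 → 3 := fun h S => (h S).ortho
    tfae_have 3 → 1 := by
      intro h
      by_contra hcon
      obtain ⟨S, hS⟩ := subspacePart hcon
      exact hS (h S)
    tfae_finish

end Pool.Agent.Results.MP_c1f1e9_gt.NotSubparacompact
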